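import Pool.Agent.Unicorn.A4
import Pool.Agent.Unicorn.B8

/-!
# A smooth unicorn on a surface

All definitions are the coordinate definitions of the problem file, for a function `F x y` of a
point `x` and a tangent vector `y` in `ℝⁿ`.  Nothing below is an extra datum: the spray, the
Berwald curvature and the Landsberg curvature are computed from `F`.

Main theorem `result`: there are `t1 < t2` and a smooth Finsler metric `F` on the strip
`{x ∈ ℝ² | t1 < x 0 < t2}` (defined, smooth, positive and strongly convex on ALL nonzero tangent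
vectors), which does not depend on the coordinate `x 1` (so it also lives on the cylinder
`(t1, t2) × S¹`), whose Landsberg curvature vanishes identically and whose Berwald curvature is
nonzero above every point of the strip.  In particular `F` is not Berwald, and neither is its
restriction to any nonempty open subset.
-/

set_option autoImplicit false

open Set Filter Topology
open scoped ContDiff

namespace Pool.Agent.Results.MP_9f67e3_gt.SmoothUnicorn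

/-! ### Definitions -/

/-- The partial derivative `∂f/∂z^k` of a function of `n` real variables. -/
noncomputable def pd {n : ℕ} (k : Fin n) (f : (Fin n → ℝ) → ℝ) (z : Fin n → ℝ) : ℝ :=
  fderiv ℝ f z (Pi.single k (1 : ℝ))

/-- The fundamental tensor `g_ij(x,y) = ½ ∂²F²/∂y^i∂y^j`. -/
noncomputable def fundTensor {n : ℕ} (F : (Fin n → ℝ) → (Fin n → ℝ) → ℝ)
    (x y : Fin n → ℝ) : Matrix (Fin n) (Fin n) ℝ :=
  Matrix.of fun i j => 1 / 2 * pd i (pd j fun u => F x u ^ 2) y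

/-- A smooth Finsler metric over the set `U ⊆ ℝⁿ`: `F` is smooth at all `(x, y)` with `x ∈ U` and
`y ≠ 0`, positive there, `F(x, t y) = t F(x, y)` for `t > 0`, and the fundamental tensor is
positive definite at all `x ∈ U`, `y ≠ 0`. -/
structure IsFinsler {n : ℕ} (U : Set (Fin n → ℝ)) (F : (Fin n → ℝ) → (Fin n → ℝ) → ℝ) :
    Prop where
  smooth : ContDiffOn ℝ ∞ (fun p : (Fin n → ℝ) × (Fin n → ℝ) => F p.1 p.2) (U ×ˢ {y | y ≠ 0})
  pos : ∀ x ∈ U, ∀ y : Fin n → ℝ, y ≠ 0 → 0 < F x y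
  homog : ∀ x ∈ U, ∀ y : Fin n → ℝ, ∀ t : ℝ, 0 < t → F x (t • y) = t * F x y
  convex : ∀ x ∈ U, ∀ y : Fin n → ℝ, y ≠ 0 → ∀ v : Fin n → ℝ, v ≠ 0 →
    0 < ∑ i, ∑ j, fundTensor F x y i j * v i * v j

/-- The spray coefficients
`G^i(x,y) = ¼ ∑_l g^il (∑_k y^k ∂²F²/∂x^k∂y^l - ∂F²/∂x^l)`, where `g^il` is the inverse matrix of
the fundamental tensor. -/
noncomputable def spray {n : ℕ} (F : (Fin n → ℝ) → (Fin n → ℝ) → ℝ) (x y : Fin n → ℝ)
    (i : Fin n) : ℝ :=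
  1 / 4 * ∑ l, (fundTensor F x y)⁻¹ i l *
    ((∑ k, pd k (fun z => pd l (fun u => F z u ^ 2) y) x * y k) - pd l (fun z => F z y ^ 2) x)

/-- The Berwald curvature `B^i_jkl(x,y) = ∂³G^i/∂y^j∂y^k∂y^l`. -/
noncomputable def berwald {n : ℕ} (F : (Fin n → ℝ) → (Fin n → ℝ) → ℝ) (x y : Fin n → ℝ)
    (i j k l : Fin n) : ℝ :=
  pd j (pd k (pd l fun u => spray F x u i)) y

/-- The Landsberg curvature `L_jkl(x,y) = -½ ∑_i ∑_m g_im(x,y) y^m B^i_jkl(x,y)`. -/
noncomputable def landsberg {n : ℕ} (F : (Fin n → ℝ) → (Fin n → ℝ) → ℝ) (x y : Fin n → ℝ)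
    (j k l : Fin n) : ℝ :=
  -(1 / 2) * ∑ i, ∑ m, fundTensor F x y i m * y m * berwald F x y i j k l

/-- The strip `{x ∈ ℝ² | t1 < x 0 < t2}`. -/
def strip (t1 t2 : ℝ) : Set (Fin 2 → ℝ) := {x | x 0 ∈ Ioo t1 t2}

/-! ### Proofs -/

open Pool.Agent.Unicorn Pool.Agent.Unicorn.IsoFamily

theorem pd_congr {n : ℕ} {f g : (Fin n → ℝ) → ℝ} (h : ∀ u, u ≠ 0 → f u = g u) (k : Fin n) :
    ∀ u, u ≠ 0 → pd k f u = pd k g u := by
  intro u hu
  have h2 : f =ᶠ[𝓝 u] g := by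
    filter_upwards [isOpen_ne.mem_nhds hu] with v hv using h v hv
  rw [pd, pd, h2.fderiv_eq]

variable {D : IsoFamily} {x Y : Fin 2 → ℝ}

theorem fund_eq (hx : x 0 ∈ Ioo D.t1 D.t2) (hY : Y ≠ 0) (i j : Fin 2) :
    fundTensor D.F x Y i j = D.a (x 0) (D.Th (x 0) Y) i * D.a (x 0) (D.Th (x 0) Y) j +
      D.b (x 0) (D.Th (x 0) Y) i * D.b (x 0) (D.Th (x 0) Y) j := by
  have h := fderiv2_Fsq hx hY i j
  simp only [lift, zpow_zero, one_mul] at h
  show 1 / 2 * fderiv ℝ (fun w => fderiv ℝ (fun u => D.F x u ^ 2) w (Pi.single j (1 : ℝ))) Y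
      (Pi.single i (1 : ℝ)) = _
  rw [h]
  ring

theorem det_fund (hx : x 0 ∈ Ioo D.t1 D.t2) (hY : Y ≠ 0) :
    (fundTensor D.F x Y).det ≠ 0 := by
  rw [Matrix.det_fin_two]
  simp only [fund_eq hx hY]
  have hd := dl_ne hx (D.Th (x 0) Y)
  have e : (D.dl (x 0) (D.Th (x 0) Y)) ^ 2 ≠ 0 := pow_ne_zero 2 hd
  rw [dl] at e
  intro h
  apply e
  rw [← h]
  ring

theorem spray_eq (hx : x 0 ∈ Ioo D.t1 D.t2) (hY : Y ≠ 0) (i : Fin 2) :
    spray D.F x Y i = D.G x Y i := by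
  have hdet := det_fund (D := D) hx hY
  have hu : IsUnit (fundTensor D.F x Y).det := isUnit_iff_ne_zero.2 hdet
  set R : Fin 2 → ℝ := fun l =>
    1 / 4 * ((∑ k, pd k (fun z => pd l (fun u => D.F z u ^ 2) Y) x * Y k) -
      pd l (fun z => D.F z Y ^ 2) x) with hR
  have h1 : (fundTensor D.F x Y).mulVec (fun i => D.G x Y i) = R := by
    funext l
    have h2 := IsoFamily.spray (D := D) hx hY l
    rw [hR]
    show ∑ i, fundTensor D.F x Y l i * D.G x Y i = _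
    rw [show (∑ i, fundTensor D.F x Y l i * D.G x Y i) =
      ∑ i : Fin 2, (1 / 2 : ℝ) * fderiv ℝ (fun w => fderiv ℝ (fun u => D.F x u ^ 2) w
          (Pi.single i (1 : ℝ) : Fin 2 → ℝ)) Y (Pi.single l (1 : ℝ) : Fin 2 → ℝ)
        * D.G x Y i from rfl, h2]
    rfl
  have h3 : (fun i => D.G x Y i) = (fundTensor D.F x Y)⁻¹.mulVec R := by
    rw [← h1, Matrix.mulVec_mulVec, Matrix.nonsing_inv_mul _ hu, Matrix.one_mulVec]
  have h4 := congrFun h3 i
  rw [show D.G x Y i = ((fundTensor D.F x Y)⁻¹.mulVec R) i from h4]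
  show _ = ∑ l, (fundTensor D.F x Y)⁻¹ i l * R l
  rw [spray, Finset.mul_sum]
  refine Finset.sum_congr rfl fun l _ => ?_
  rw [hR]
  ring

theorem berwald_eq (hx : x 0 ∈ Ioo D.t1 D.t2) (hY : Y ≠ 0) (i j k l : Fin 2) :
    berwald D.F x Y i j k l =
      fderiv ℝ (fun w₂ => fderiv ℝ (fun w₁ => fderiv ℝ (fun u => D.G x u i) w₁
        (Pi.single l (1 : ℝ))) w₂ (Pi.single k (1 : ℝ))) Y (Pi.single j (1 : ℝ)) := by
  have h0 : ∀ u, u ≠ 0 → spray D.F x u i = D.G x u i := fun u hu => spray_eq hx hu i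
  exact pd_congr (pd_congr (pd_congr h0 l) k) j Y hY

theorem fund_Y (hx : x 0 ∈ Ioo D.t1 D.t2) (hY : Y ≠ 0) (i : Fin 2) :
    ∑ m, fundTensor D.F x Y i m * Y m =
      (1 / 2 : ℝ) * fderiv ℝ (fun u => D.F x u ^ 2) Y (Pi.single i (1 : ℝ) : Fin 2 → ℝ) := by
  have hY0 := Y_eq hx hY 0
  have hY1 := Y_eq hx hY 1
  rw [fderiv_Fsq hx hY, Fin.sum_univ_two, fund_eq hx hY, fund_eq hx hY, hY0, hY1]
  simp only [lift]
  have e1 := a_dot_w hx (D.Th (x 0) Y)
  have e2 := b_dot_w hx (D.Th (x 0) Y)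
  linear_combination (D.F x Y ^ (1 : ℤ) * D.a (x 0) (D.Th (x 0) Y) i) * e1 +
    (D.F x Y ^ (1 : ℤ) * D.b (x 0) (D.Th (x 0) Y) i) * e2

theorem landsberg_eq (hx : x 0 ∈ Ioo D.t1 D.t2) (hY : Y ≠ 0) (j k l : Fin 2) :
    landsberg D.F x Y j k l = 0 := by
  have h := IsoFamily.landsberg (D := D) hx hY j k l
  rw [landsberg]
  have h2 : ∑ i, ∑ m, fundTensor D.F x Y i m * Y m * berwald D.F x Y i j k l = 0 := by
    rw [← h]
    refine Finset.sum_congr rfl fun i _ => ?_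
    rw [← Finset.sum_mul, fund_Y hx hY i, berwald_eq hx hY]
  rw [h2, mul_zero]

/-- Berwald curvature is nonzero above every point where the family is nondegenerate. -/
theorem berwald_ne (hx : x 0 ∈ Ioo D.t1 D.t2) {θ : ℝ}
    (h1 : deriv (deriv D.f) (deriv (D.y (x 0)) θ) ≠ 0)
    (h2 : deriv (deriv (D.y (x 0))) θ ≠ 0) :
    ∃ Y : Fin 2 → ℝ, Y ≠ 0 ∧ ∃ i j k l : Fin 2, berwald D.F x Y i j k l ≠ 0 := by
  set t := x 0 with ht
  set Y : Fin 2 → ℝ := D.w t θ with hYdef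
  have hg : D.g (x 0) Y θ = 1 := a_dot_w hx θ
  have hg' : D.g' (x 0) Y θ = 0 := b_dot_w hx θ
  have hY : Y ≠ 0 := by
    intro h
    rw [g, h] at hg
    simp at hg
  have hI : dθ D.I t θ ≠ 0 := by
    have hff : ContDiff ℝ ∞ (deriv D.f) := ContDiff.deriv' (n := ∞) (by simpa using D.hf)
    have e : HasDerivAt (fun θ => - deriv D.f (dθ D.y t θ))
        (-(deriv (deriv D.f) (dθ D.y t θ) * dθ (dθ D.y) t θ)) θ := by
      have h3 : HasDerivAt (deriv D.f) (deriv (deriv D.f) (dθ D.y t θ)) (dθ D.y t θ) :=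
        (hff.differentiable (by simp) _).hasDerivAt
      exact (h3.comp θ (D.adm_y.dθ.hasDerivAt_θ hx θ)).neg
    have e2 : dθ D.I t θ = -(deriv (deriv D.f) (dθ D.y t θ) * dθ (dθ D.y) t θ) := e.deriv
    rw [e2]
    exact neg_ne_zero.2 (mul_ne_zero h1 h2)
  have hd := dl_ne hx θ
  obtain ⟨k, hk⟩ : ∃ k, D.b t θ k ≠ 0 := by
    by_contra hcon
    push Not at hcon
    apply hd
    rw [dl, hcon 0, hcon 1]; ring
  obtain ⟨i, hi⟩ : ∃ i, D.v t θ i ≠ 0 := by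
    by_contra hcon
    push Not at hcon
    have := b_dot_v hx θ
    rw [hcon 0, hcon 1] at this
    simp at this
  refine ⟨Y, hY, i, k, k, 1, ?_⟩
  have hadm : D.Adm (fun t θ => D.cc 1 t θ * D.v t θ i * D.b t θ k * D.b t θ k) := by
    rw [cc_one]
    exact ((D.adm_I.dθ.neg.mul (adm_v i)).mul (D.adm_b k)).mul (D.adm_b k)
  rw [berwald_eq hx hY, G_d3 hx hY, lift_eq_crit hadm (-1) hx hY hg' (by rw [hg]; exact one_pos),
    hg, one_zpow, one_mul, cc_one]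
  exact mul_ne_zero (mul_ne_zero (mul_ne_zero (neg_ne_zero.2 hI) hi) hk) hk

/-- The nondegeneracy of the family persists on a smaller interval of parameters. -/
theorem exists_interval (D : IsoFamily) : ∃ s1 s2 : ℝ, s1 < s2 ∧ Ioo s1 s2 ⊆ Ioo D.t1 D.t2 ∧
    ∃ θ : ℝ, ∀ t ∈ Ioo s1 s2, deriv (deriv D.f) (deriv (D.y t) θ) ≠ 0 ∧
      deriv (deriv (D.y t)) θ ≠ 0 := by
  obtain ⟨t, ht, θ, h1, h2⟩ := D.nondeg
  have hff : ContDiff ℝ ∞ (deriv D.f) := ContDiff.deriv' (n := ∞) (by simpa using D.hf)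
  have hfff : ContDiff ℝ ∞ (deriv (deriv D.f)) := ContDiff.deriv' (n := ∞) (by simpa using hff)
  have c1 : ContinuousAt (fun s => dθ D.y s θ) t :=
    (D.adm_y.dθ.hasDerivAt_t ht θ).continuousAt
  have c2 : ContinuousAt (fun s => dθ (dθ D.y) s θ) t :=
    (D.adm_y.dθ.dθ.hasDerivAt_t ht θ).continuousAt
  have c3 : ContinuousAt (fun s => deriv (deriv D.f) (dθ D.y s θ)) t :=
    ContinuousAt.comp (f := fun s => dθ D.y s θ) hfff.continuous.continuousAt c1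
  have e1 : ∀ᶠ s in 𝓝 t, deriv (deriv D.f) (dθ D.y s θ) ≠ 0 := c3.eventually_ne h1
  have e2 : ∀ᶠ s in 𝓝 t, dθ (dθ D.y) s θ ≠ 0 := c2.eventually_ne h2
  have e3 : ∀ᶠ s in 𝓝 t, s ∈ Ioo D.t1 D.t2 := isOpen_Ioo.mem_nhds ht
  obtain ⟨ε, hε, h⟩ := Metric.eventually_nhds_iff.1 ((e1.and e2).and e3)
  have key : ∀ s ∈ Ioo (t - ε) (t + ε), dist s t < ε := by
    intro s hs
    rw [Real.dist_eq, abs_lt]
    exact ⟨by linarith [hs.1], by linarith [hs.2]⟩
  refine ⟨t - ε, t + ε, by linarith, fun s hs => (h (key s hs)).2, θ, fun s hs => ?_⟩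
  exact (h (key s hs)).1

/-- **A smooth unicorn.**  There are `t1 < t2` and a smooth Finsler metric `F` on the strip
`{x ∈ ℝ² | t1 < x 0 < t2}` which depends on the point `x` through `x 0` only, whose Landsberg
curvature vanishes identically and whose Berwald curvature does not vanish identically above any
point of the strip. -/
theorem result : ∃ t1 t2 : ℝ, t1 < t2 ∧ ∃ F : (Fin 2 → ℝ) → (Fin 2 → ℝ) → ℝ,
    IsFinsler (strip t1 t2) F ∧
    (∀ x x' : Fin 2 → ℝ, x 0 = x' 0 → F x = F x') ∧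
    (∀ x ∈ strip t1 t2, ∀ y : Fin 2 → ℝ, y ≠ 0 → ∀ j k l : Fin 2, landsberg F x y j k l = 0) ∧
    (∀ x ∈ strip t1 t2, ∃ y : Fin 2 → ℝ, y ≠ 0 ∧ ∃ i j k l : Fin 2,
      berwald F x y i j k l ≠ 0) := by
  obtain ⟨D⟩ := exists_isoFamily
  obtain ⟨s1, s2, hs, hsub, θ, hθ⟩ := exists_interval D
  refine ⟨s1, s2, hs, D.F, ⟨?_, ?_, ?_, ?_⟩, ?_, ?_, ?_⟩
  · refine (F_contDiffOn (D := D)).mono ?_
    rintro ⟨x, y⟩ ⟨hx, hy⟩
    exact ⟨hsub hx, hy⟩
  · exact fun x hx y hy => F_pos (hsub hx) hy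
  · exact fun x _ y t ht => F_smul x y ht
  · exact fun x hx y hy v hv => F_convex (hsub hx) hy hv
  · intro x x' h
    funext y
    rw [IsoFamily.F, IsoFamily.F, h]
  · exact fun x hx y hy j k l => landsberg_eq (hsub hx) hy j k l
  · exact fun x hx => berwald_ne (hsub hx) (hθ (x 0) hx).1 (hθ (x 0) hx).2

end Pool.Agent.Results.MP_9f67e3_gt.SmoothUnicorn
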